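import Pool.Agent.K3G.BurgerThm
import Pool.Agent.K3G.SmoothBridge
import Pool.Agent.helper10.K3S.Conn
import Pool.Agent.helper10.K3S.Proj
import Pool.Agent.helper10.K3S.Invol
import Pool.Agent.helper10.K3S.Base
import Pool.Agent.helper10.K3B.FinalTop

/-!
# A family of triple K3 burgers without multiplicative decomposition (MP_41ba4a_ag, Q1: negative answer)

Parameters `b = (s, e, t, u, μ) ∈ ℂ⁵` in the Zariski open subset `B = BaseSet`; three elliptic curves
`E₀ : y² = (x - s)(x - s + e)(x² - 1)`, `E₁ : y² = (x - t)(x - t + u)(x² - 1)`, `E₂ : y² = x⁴ - 1`;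
`D_b = {x₀ x₂ = μ x₁} ⊂ E₀ × E₁ × E₂` and `S_b = D_b / (-1)`, where `-1` changes the signs of all `yᵢ`.
`Cone` is the variety of homogeneous coordinates `(b, W, X, Y)`, `xᵢ = Xᵢ / Wᵢ`, `yᵢ = Yᵢ / Wᵢ²`, and
`Total = Cone / ((ℂ*)³ × {±1})` is the total space `S` of the family, `projB : Total → Base` the projection.

The fibres `S_b` are triple K3 burgers; the commuting involutions are `σⱼ : yⱼ ↦ -yⱼ`, and `S_b / σⱼ` is
birational to the Kummer surface of `Eᵢ × E_k`.  Over no nonempty Zariski open subset of `B` is there a
multiplicative decomposition isomorphism `⨁ Rⁱπ_*ℚ[-i] ≅ Rπ_*ℚ`.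
-/

set_option autoImplicit false

namespace Pool.Agent.Results.MP_41ba4a_ag.TripleBurgers

open TripleBurger Pool.Agent.K3G.BurgerDef TopologicalSpace
open Pool.Agent.K3G (IsSmoothAt isSmoothAt)

/-- `π : S → B` (`projB : Total → Base`) is a smooth projective family of connected surfaces over a smooth
connected quasi-projective variety, with three commuting involutions over `B`.  `S_b` is the quotient of the fibre
of `Cone` over `b`, a closed subvariety of an open subset of `ℂ⁹` defined by four equations, by the free action of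
`(ℂ*)³ × {±1}`. -/
structure IsFamily : Prop where
  /-- `B` is the complement of a hypersurface of `ℂ⁵` -/
  base_open : ∃ G : MvPolynomial (Fin 5) ℂ, G ≠ 0 ∧ BaseSet = {b | MvPolynomial.eval b G ≠ 0}
  /-- `B` is connected -/
  base_connected : IsPathConnected BaseSet
  /-- the differentials of the four equations are linearly independent at every point (Jacobian criterion), so
  the fibre of `Cone` is smooth of dimension `9 - 4 = 5`, and `S_b` is smooth of dimension `5 - 3 = 2` -/
  smooth : ∀ p : Cone, IsSmoothAt p
  /-- `(ℂ*)³ × {±1}` acts freely -/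
  free : ∀ (p : Cone) (c : Fin 3 → ℂ) (σ : ℂ), (∀ i, c i ≠ 0) → (σ = 1 ∨ σ = -1) →
    (∀ i, p.W i = c i * p.W i ∧ p.X i = c i * p.X i ∧ p.Y i = σ * (c i ^ 2 * p.Y i)) →
    (∀ i, c i = 1) ∧ σ = 1
  /-- `S` is Hausdorff -/
  hausdorff : T2Space Total
  /-- `π` is proper -/
  proper : IsProperMap projB
  /-- the fibres are connected (and nonempty) -/
  connected : ∀ b : Base, IsConnected (projB ⁻¹' {b})
  /-- the `36` monomials `Proj.mon` (of degree `2` in each of `(W₀, X₀)`, `(W₁, X₁)`, `(W₂, X₂)`, weight `2` for
  `Yᵢ`, even in `Y`) have no common zero and separate the points of `S_b` -/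
  separates : Proj.Separates
  /-- and they separate the tangent vectors: the resulting map `S_b → P³⁵` is a closed immersion -/
  immersive : ∀ p : Cone, Proj.Immersive p
  /-- `Yⱼ ↦ -Yⱼ`, `j = 0, 1, 2`, are three commuting involutions of `S` over `B`, given by diagonal linear maps of
  `P³⁵` -/
  involutions : Invol.HasInvolutions

theorem isFamily : IsFamily where
  base_open := ⟨baseP, baseP_ne_zero, baseSet_eq⟩
  base_connected := baseSet_isPathConnected
  smooth := isSmoothAt
  free := by
    intro p c σ hc hσ h
    have hc1 : ∀ i, c i = 1 := by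
      intro i
      rcases p.2.2.1 i with hW | hX
      · have := (h i).1
        exact (mul_right_cancel₀ (b := p.W i) hW (by rw [one_mul]; exact this)).symm
      · have := (h i).2.1
        exact (mul_right_cancel₀ (b := p.X i) hX (by rw [one_mul]; exact this)).symm
    refine ⟨hc1, ?_⟩
    rcases hσ with rfl | rfl
    · rfl
    · exact absurd ⟨c, hc, fun i => ⟨(h i).1, (h i).2.1, by linear_combination (h i).2.2⟩⟩
        (Pool.Agent.K3G.free p)
  hausdorff := total_t2
  proper := projB_isProperMap
  connected := isConnected_fibre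
  separates := Proj.separates
  immersive := Proj.immersive
  involutions := Invol.hasInvolutions

/-- **Negative answer to Q1.**  `π : S → B` is a family of triple K3 burgers, and over no nonempty Zariski open
subset `Z` of `B` does it have a multiplicative decomposition isomorphism.  Such an isomorphism would give the
structure `MultDecomp` (with `W V n i` the image of `H^{n-i}(V, Rⁱπ_*ℚ)` in `Hⁿ(S_V, ℚ)`), in particular, for every
open `U ⊆ Z`, linear sections `s₂, s₄` of `Hʲ(S_U, ℚ) → H⁰(U, Rʲπ_*ℚ)`, `j = 2, 4`, such that the products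
`s₂(a) ∪ s₂(b)` lie in the image of `s₄` (`HasSections`). -/
theorem result : IsFamily ∧ (∀ b ∈ BaseSet, IsBurger b) ∧
    ∀ Z : Opens Base, IsZariskiOpen (Z : Set Base) → (Z : Set Base).Nonempty →
      IsEmpty (MultDecomp projB Z) ∧
        ∃ U : Opens Base, U ≤ Z ∧ (U : Set Base).Nonempty ∧ ¬ HasSections projB U :=
  ⟨isFamily, fun _ hb => isBurger hb, fun Z hZ hne => ⟨no_multDecomp Z hZ hne, no_sections Z hZ hne⟩⟩

end Pool.Agent.Results.MP_41ba4a_ag.TripleBurgers
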